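import Pool.Agent.MP_ee8c61_ag.N3KV.Spec

/-!
Frames from a Jacobian determinant.
-/

namespace Pool.Agent.MP_ee8c61_ag.N3.M3KV

open Pool.Agent.MP_ee8c61_ag.M3

set_option linter.unusedSectionVars false

variable [Base]

open M3RESID Finset Matrix

theorem rowFr : SFr := by
  intro L _ _ n r R z hR hs hz hd
  generalize hA : (Matrix.of fun l j => R l (z j)) = A at hd ⊢
  have eA : ∀ l j, R l (z j) = A l j := fun l j => by rw [← hA, of_apply]
  have hu : IsUnit A.det := isUnit_iff_ne_zero.2 hd
  have ap : ∀ j g, (∑ l, A⁻¹ j l • R l) g = (A⁻¹ *ᵥ fun l => R l g) j := fun j g => by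
    rw [sum_ap]
    rfl
  refine ⟨⟨z, fun j => ∑ l, A⁻¹ j l • R l, hz, fun i j => ?_, fun v hv => ?_⟩, rfl,
    fun j g => ?_, ?_⟩
  · rw [ap, ← one_apply, ← nonsing_inv_mul A hu]
    simp only [eA]
    rfl
  · have h : (fun l => v (r l)) = 0 := eq_zero_of_vecMul_eq_zero hd (funext fun j => by
      have := hs v (z j)
      simp only [hv, eA] at this
      exact this.symm)
    ext g
    rw [hs]
    exact sum_eq_zero fun l _ => by rw [congrFun h l, Pi.zero_apply, zero_mul]
  · have h := congrFun (det_smul_inv_mulVec_eq_cramer A (fun l => R l g) hu) j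
    rw [Pi.smul_apply, smul_eq_mul, mul_comm, cramer_apply, ← ap] at h
    refine h.trans (congrArg det ?_)
    ext l j'
    by_cases e : j' = j
    · rw [e, updateCol_self, of_apply, Function.update_self]
    · rw [updateCol_ne e, of_apply, Function.update_of_ne e, eA]
  · have h : (Matrix.of fun l j => (∑ l, A⁻¹ j l • R l) (r l)) = A⁻¹ᵀ := by
      ext l j
      rw [of_apply, ap, transpose_apply]
      simp [mulVec, dotProduct, hR]
    refine (congrArg (fun B => B.det * A.det) h).trans ?_
    simp only [det_transpose, det_nonsing_inv_mul_det A hu]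

end Pool.Agent.MP_ee8c61_ag.N3.M3KV
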