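import Pool.Agent.MP_ee8c61_ag.N3KV.Spec

/-! Lifting of a generator along a curve that is not contracted. -/

namespace Pool.Agent.MP_ee8c61_ag.N3.M3KV

open Pool.Agent.MP_ee8c61_ag.M3

set_option linter.unusedSectionVars false

variable [Base]

open H59 M3 M3E M3RESID Finset

namespace RIL

theorem clear {J : Type} [Fintype J] (x : J → ℚ) :
    ∃ (m : ℕ) (c : J → ℤ), 0 < m ∧ ∀ j, (c j : ℚ) = m * x j := by
  have h : ∀ j, ∃ n : ℤ, (n : ℚ) = (∏ i, (x i).den : ℕ) * x j := fun j => by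
    obtain ⟨r, hr⟩ := dvd_prod_of_mem (fun i => (x i).den) (mem_univ j)
    refine ⟨r * (x j).num, ?_⟩
    rw [hr]
    have : ((x j).den : ℚ) * x j = (x j).num := Rat.den_mul_eq_num _
    push_cast
    linear_combination -(r : ℚ) * this
  choose c hc using h
  exact ⟨_, c, prod_pos fun i _ => (x i).den_pos, hc⟩

theorem ns {J R : Type} [Semiring R] (n : ℕ) (x : J → R) (j : J) : (n • x) j = n * x j :=
  nsmul_eq_mul n (x j)

end RIL

theorem rowIL : OfIL := by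
  intro hB hN _ hL N f M Q o i V hM hQ hV hNN d
  have B := hB N f M hM
  obtain ⟨hio, hov, hle, hth, -⟩ := hV
  set c0 : M.J → ℤ := d - (M.kk + M.e o) with hc0
  set x : ℚ := Q.P (M.q c0) i with hx
  have ex : Q.P (M.q d) i + Q.dl o i - 1 = x + (M.k i : ℤ) := by
    rw [hx, hc0, M.q_sub, map_sub, PD.dl, Pi.sub_apply]
    push_cast
    ring
  have hε : 0 < x - (⌈x⌉ - 1) := by
    have := Int.ceil_lt_add_one x
    linarith
  obtain ⟨Ξ, hΞ0, hΞ, n0, hamp⟩ := hQ.amp c0 _ hε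
  obtain ⟨n, s, hs, hg⟩ := hNN (M.kk + M.e o + M.up (Q.P (M.q c0) - Ξ))
  obtain ⟨T, hT, hT'⟩ := hQ.free
  obtain ⟨t, ht, htg⟩ := hT' V hov
  have ec : M.kk + M.e o + M.up (Q.P (M.q c0) - Ξ) + n • Q.L + n0 • Q.L =
      M.kk + M.e o + M.up ((n + n0) • M.q Q.L + Q.P (M.q c0) - Ξ) := by
    funext j
    have e : ((n + n0) • M.q Q.L + Q.P (M.q c0) - Ξ) j =
        (Q.P (M.q c0) - Ξ) j + (((n + n0 : ℕ) : ℤ) * Q.L j : ℤ) := by
      simp only [Pi.sub_apply, Pi.add_apply, RIL.ns, Mod.q_apply]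
      push_cast
      ring
    have e' : M.up ((n + n0) • M.q Q.L + Q.P (M.q c0) - Ξ) j =
        M.up (Q.P (M.q c0) - Ξ) j + ((n + n0 : ℕ) : ℤ) * Q.L j := by
      rw [Mod.up, e, Int.ceil_add_intCast, Mod.up]
    simp only [Pi.add_apply, RIL.ns, e']
    push_cast
    ring
  have hs2 : s * t ^ n0 ∈ M.R o (M.kk + M.e o + M.up ((n + n0) • M.q Q.L + Q.P (M.q c0) - Ξ)) := by
    rw [← ec]
    exact fun V' a b => B.oc_mul _ _ _ _ _ (hs V' a b) (B.oc_pow _ _ _ _ (hT t ht V' a))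
  have hg2 : M.Gen V (M.kk + M.e o + M.up ((n + n0) • M.q Q.L + Q.P (M.q c0) - Ξ))
      (s * t ^ n0) := by
    rw [← ec]
    exact B.gen_mul _ _ _ _ _ hg (B.gen_pow _ _ _ _ htg)
  obtain ⟨g, hgH, hgs⟩ := hL N f M hM o _ (hamp (n + n0) (Nat.le_add_left _ _)) _ hs2
  set c := M.kk + M.e o + M.up ((n + n0) • M.q Q.L + Q.P (M.q c0) - Ξ) with hc
  have hg3 : M.Gen V c g := B.gen_small V o c _ g hle hg2 (by
    have := neg_mem hgs
    rwa [neg_sub] at this)
  have cj : ∀ j, c j = M.k j + M.e o j + ⌈Q.P (M.q c0) j - Ξ j⌉ + ((n + n0 : ℕ) : ℤ) * Q.L j :=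
    fun j => by
      rw [← ec]
      simp only [Pi.add_apply, RIL.ns, Mod.up, Pi.sub_apply, Mod.kk]
      push_cast
      ring
  have al : ∀ j ∈ Q.Al, c j = d j + ((n + n0 : ℕ) : ℤ) * Q.L j := fun j hj => by
    rw [cj, hQ.id _ j hj, hΞ0 j hj, sub_zero, Mod.q_apply, Int.ceil_intCast, hc0]
    simp only [Pi.sub_apply, Pi.add_apply, Mod.kk]
    ring
  refine ⟨n + n0, c, g, hgH, hg3, al, ?_, ?_⟩
  · rw [cj, ex, Int.ceil_add_intCast, M.e_apply, if_neg hio, ← hx]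
    have : ⌈x⌉ - 1 < ⌈x - Ξ i⌉ := by
      rw [Int.lt_ceil]
      have := hΞ i
      push_cast
      linarith
    omega
  · obtain ⟨b, hb⟩ := hM.cov V hov
    have un := hg3 b hb
    obtain ⟨hbi, -, -, hv⟩ := B.in_v b V i hb hth
    have g0 : g ≠ 0 := left_ne_zero_of_mul un.1
    have v0 := hv _ (((hN N f M hM).H c g).1 hgH b) un
    rw [(M.v i).mul _ _ g0 (M.mon_ne b c), B.v_mon b i c hbi] at v0
    obtain ⟨m, c', hm, hc'⟩ := RIL.clear (Q.P (M.q c))
    have hp := hQ.exc c g hgH m c' hm (funext fun j => by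
      rw [Mod.q_apply, hc', RIL.ns])
    have h1 := ((B.oc_v i c' _).1 (hp _ (B.ov_v i))).resolve_left (pow_ne_zero _ g0)
    rw [DV.pow] at h1
    have e : Q.P (M.q c) = Q.P (M.q d) + (n + n0) • M.q Q.L := by
      rw [← hQ.fix, ← map_nsmul, ← map_add]
      refine hQ.pr _ _ fun j hj => ?_
      simp only [Pi.add_apply, RIL.ns, Mod.q_apply, al j hj]
      push_cast
      ring
    have h2 := hc' i
    rw [e, Pi.add_apply, RIL.ns, Mod.q_apply] at h2
    have h3 : (M.v i).v g = -c i := by omega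
    rw [h3] at h1
    have h4 : (m : ℚ) * c i ≤ c' i := by
      have : (m : ℤ) * c i ≤ c' i := by linarith
      exact_mod_cast this
    rw [h2] at h4
    have h5 := le_of_mul_le_mul_left h4 (Nat.cast_pos.2 hm)
    linarith

end Pool.Agent.MP_ee8c61_ag.N3.M3KV
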