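import Pool.Agent.MP_ee8c61_ag.N3KV.Spec

/-!
Clearing of poles along the zeros of a section.
-/

namespace Pool.Agent.MP_ee8c61_ag.N3.M3KV

open Pool.Agent.MP_ee8c61_ag.M3

set_option linter.unusedSectionVars false

variable [Base]

open H59 M3 M3E M3RESID Finset

theorem rowPow : OfPow := by
  intro hB hN N f M hM c0 t ht c g hg
  have B := hB N f M hM
  have A := hN N f M hM
  by_cases h0 : t = 0
  · refine ⟨1, (A.H _ _).2 fun b => ?_⟩
    rw [h0, pow_one, zero_mul, zero_mul]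
    exact zero_mem _
  have ht' := (A.H _ _).1 ht
  have key : ∀ b, ∃ e : ℕ, (t * M.mon b c0) ^ e * (g * M.mon b c) ∈ M.S.A b := fun b => by
    have hne : t * M.mon b c0 ≠ 0 := mul_ne_zero h0 (M.mon_ne b c0)
    refine A.aw b _ (ht' b) hne _ fun V hV hi => ?_
    exact (B.oc_iff b V c g hV).1
      (hg V (B.ov b V hV) ((B.gen_iff b V c0 t hV).2 ⟨hne, hV _ (ht' b), hi⟩))
  choose e he using key
  refine ⟨univ.sup e, (A.H _ _).2 fun b => ?_⟩
  obtain ⟨d, hd⟩ := Nat.exists_eq_add_of_le (le_sup (f := e) (mem_univ b))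
  have h1 := mul_mem (pow_mem (ht' b) d) (he b)
  have h2 : t ^ univ.sup e * g * M.mon b (c + univ.sup e • c0) =
      (t * M.mon b c0) ^ d * ((t * M.mon b c0) ^ e b * (g * M.mon b c)) := by
    rw [B.mon_add, B.mon_nsmul, hd]
    ring
  rw [h2]
  exact h1

end Pool.Agent.MP_ee8c61_ag.N3.M3KV
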