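import Pool.Agent.MP_ee8c61_ag.N3KV.RDich

/-! The regular local ring at a curve of discrepancy one. -/

namespace Pool.Agent.MP_ee8c61_ag.N3.M3KV

open Pool.Agent.MP_ee8c61_ag.M3

set_option linter.unusedSectionVars false

variable [Base]

open H59 M3 M3E M3RESID Finset

namespace RREG

variable {N : ℕ} {M : Mod N}

theorem der_zero (δ : VF (KK N)) (h : ∀ l, δ (M3.ip N (MvPolynomial.X l)) = 0) (g : KK N) :
    δ g = 0 := by
  have hp : ∀ p : M3.Po N, δ (M3.ip N p) = 0 := fun p => by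
    induction p using MvPolynomial.induction_on with
    | C a => exact (congrArg δ ((M3.ip N).commutes a)).trans (δ.map_algebraMap a)
    | add p q hp hq => rw [map_add, map_add, hp, hq, add_zero]
    | mul_X p l hp => rw [map_mul, Derivation.leibniz, hp, h, smul_zero, smul_zero, add_zero]
  obtain ⟨a, b, -, rfl⟩ := IsFractionRing.div_surjective (A := M3.Po N) g
  rw [Derivation.leibniz_div, show δ (algebraMap _ _ a) = 0 from hp a,
    show δ (algebraMap _ _ b) = 0 from hp b]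
  simp

theorem span {f : Po N} (hM : M.OK f) (δ : VF (KK N)) (g : KK N) :
    δ g = ∑ l, δ (M.S.r l) * M.S.R l g := by
  have := der_zero (δ - ∑ l, δ (M.S.r l) • M.S.R l) (fun l => by
    have e : M3.ip N (MvPolynomial.X l) = M.S.r l := (congrFun hM.r l).symm
    rw [e]
    simp [sum_ap, M.S.R_r]) g
  simpa [sum_ap, sub_eq_zero] using this

theorem jac (b : M.ι) (w : Fin N → KK N) : (Matrix.of fun a j => M.S.D b a (w j)).det =
    (Matrix.of fun l i => M.S.D b i (M.S.r l)).det * (Matrix.of fun l j => M.S.R l (w j)).det := by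
  rw [← Matrix.det_transpose (Matrix.of fun l i => M.S.D b i (M.S.r l)), ← Matrix.det_mul]
  congr 1
  ext a j
  simp [Matrix.mul_apply, M.S.D_R b a (w j)]

variable {Q : PD M} {V : Vl N}

theorem secA {c : M.J → ℤ} {g : KK N} (h : Q.Sec V c g) : Q.SecA V c g := ⟨c, fun _ _ => le_rfl, h⟩

theorem one0 (S : Sc Q V) : Q.SecA V 0 1 := by simpa using S.pol 1

theorem secA_pow (S : Sc Q V) {c : M.J → ℤ} {g : KK N} (h : Q.SecA V c g) (n : ℕ) :
    Q.SecA V (n • c) (g ^ n) := by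
  induction n with
  | zero => simpa using one0 S
  | succ n ih =>
    rw [succ_nsmul, pow_succ]
    exact S.mul _ _ _ _ ih h

/-- The local ring. -/
def ring (S : Sc Q V) : Subalgebra ℂ (KK N) where
  carrier := {g | Q.Sec V 0 g}
  mul_mem' ha hb := S.zero _ (by simpa using S.mul _ _ _ _ (secA ha) (secA hb))
  add_mem' ha hb := S.zero _ (S.add _ _ _ (secA ha) (secA hb))
  algebraMap_mem' c := S.zero _ (by
    have := S.pol (algebraMap ℂ _ c)
    rwa [show ip N (algebraMap ℂ _ c) = algebraMap ℂ _ c from (ip N).commutes c] at this)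

theorem mem_ring {S : Sc Q V} {g : KK N} : g ∈ ring S ↔ Q.Sec V 0 g := Iff.rfl

theorem drop (S : Sc Q V) {o : M.J} (h1 : ∀ j, j ≠ o → Q.SecA V (-M.e j) 1) {c : M.J → ℤ}
    {g : KK N} (hc : c o ≤ 0) (hg : Q.SecA V c g) : Q.Sec V 0 g := by
  have h2 : Q.SecA V (∑ j, (-c j) • M.e j) 1 := by
    refine sum_induction _ (fun c => Q.SecA V c 1) (fun a b ha hb => ?_) (one0 S) fun j _ => ?_
    · simpa using S.mul _ _ _ _ ha hb
    · by_cases h : c j ≤ 0
      · refine S.mono _ _ _ (fun l _ => ?_) (one0 S)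
        rw [Pi.smul_apply, M.e_apply]
        split_ifs <;> simp [h]
      · have h3 := secA_pow S (h1 j fun e => h (e ▸ hc)) (c j).toNat
        rw [one_pow] at h3
        refine S.mono _ _ _ (fun l _ => le_of_eq ?_) h3
        simp [Int.toNat_of_nonneg (not_le.1 h).le]
  have h3 : c + ∑ j, (-c j) • M.e j = 0 := funext fun l => by simp [M.e_apply]
  have h4 := S.mul _ _ _ _ hg h2
  rw [h3, mul_one] at h4
  exact S.zero _ h4

theorem un_of_gen {f : Po N} (hM : M.OK f) (B : Bas f M) (hV : Ov V) {g : KK N}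
    (h : M.Gen V 0 g) : Un V g := by
  obtain ⟨b, hb⟩ := hM.cov V hV
  simpa [B.mon_zero] using h b hb

theorem gen_of_un {f : Po N} (B : Bas f M) {g : KK N} (h : Un V g) : M.Gen V 0 g :=
  fun b _ => by simpa [B.mon_zero] using h

theorem mem_of_oc {f : Po N} (hM : M.OK f) (B : Bas f M) (hV : Ov V) {g : KK N}
    (h : M.Oc V 0 g) : g ∈ V := by
  obtain ⟨b, hb⟩ := hM.cov V hV
  simpa [B.mon_zero] using h b hb

theorem gen_up {f : Po N} (hM : M.OK f) (B : Bas f M) (hV : Ov V) {o : M.J}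
    (hle : V ≤ (M.v o).O) {c : M.J → ℤ} {g : KK N} (h : M.Gen V c g) :
    g ≠ 0 ∧ (M.v o).v g = -c o := by
  obtain ⟨b, hb⟩ := hM.cov V hV
  exact (B.gen_v o c g).1 ((B.gen_iff b _ c g fun x hx => hle (hb x hx)).2 ((h b hb).mono hle))

theorem det3 {K : Type} [Field K] (d : DV K) (A : Matrix (Fin 3) (Fin 3) K) (ξ : K)
    (hξ : ξ ∈ d.F 0) (h00 : A 0 0 - ξ ∈ d.F 1) (h01 : A 0 1 ∈ d.F 0) (h02 : A 0 2 ∈ d.F 0)
    (h10 : A 1 0 ∈ d.F 1) (h20 : A 2 0 ∈ d.F 1) (h11 : A 1 1 - 1 ∈ d.F 1) (h12 : A 1 2 ∈ d.F 1)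
    (h21 : A 2 1 ∈ d.F 1) (h22 : A 2 2 - 1 ∈ d.F 1) : A.det - ξ ∈ d.F 1 := by
  have a : ∀ {g h : K}, g ∈ d.F 0 → h ∈ d.F 1 → g * h ∈ d.F 1 := fun hg hh => by
    simpa using d.F_mul hg hh
  have a0 : ∀ {g h : K}, g ∈ d.F 0 → h ∈ d.F 0 → g * h ∈ d.F 0 := fun hg hh => by
    simpa using d.F_mul hg hh
  have w : ∀ {g : K}, g ∈ d.F 1 → g ∈ d.F 0 := fun hg => d.F_anti zero_le_one hg
  have o1 : (1 : K) ∈ d.F 0 := Or.inr d.one.ge
  have b11 : A 1 1 ∈ d.F 0 := by simpa using add_mem (w h11) o1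
  have b22 : A 2 2 ∈ d.F 0 := by simpa using add_mem (w h22) o1
  have e : A.det - ξ = (A 1 1 * A 2 2 - A 1 2 * A 2 1) * (A 0 0 - ξ) +
      ξ * (A 2 2 * (A 1 1 - 1) + (A 2 2 - 1) - A 1 2 * A 2 1) -
      A 0 1 * (A 2 2 * A 1 0 - A 1 2 * A 2 0) + A 0 2 * (A 1 0 * A 2 1 - A 1 1 * A 2 0) := by
    rw [Matrix.det_fin_three]
    ring
  rw [e]
  exact add_mem (sub_mem (add_mem (a (sub_mem (a0 b11 b22) (a0 (w h12) (w h21))) h00)
    (a hξ (sub_mem (add_mem (a b22 h11) h22) (a (w h12) h21))))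
    (a h01 (sub_mem (a b22 h10) (a (w h12) h20)))) (a h02 (sub_mem (a (w h10) h21) (a b11 h20)))

theorem det_mem {K : Type} [Field K] (V : ValuationSubring K) {n : ℕ}
    (A : Matrix (Fin n) (Fin n) K) (h : ∀ i j, A i j ∈ V) : A.det ∈ V := by
  rw [Matrix.det_apply']
  exact sum_mem fun σ _ => mul_mem (intCast_mem _ _) (prod_mem fun i _ => h _ _)

theorem third (l0 l1 : Fin 3) (h : l0 ≠ l1) :
    ∃ σ : Equiv.Perm (Fin 3), σ 0 = l0 ∧ σ 1 = l1 := by
  revert l0 l1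
  decide

end RREG

open RREG

theorem rowREG : OfREG := by
  intro hB hD hC hAR hIL hS hSu hF f M Q o i V hM hQ hV hN hdl hh
  have B := hB 3 f M hM
  have Dr := hD 3 f M hM
  have Cv := hC 3 f M hM
  obtain ⟨hio, hov, hle, hti, hcv⟩ := id hV
  have S := hS 3 f M Q o V hM hQ hov
  have hto := B.thru_le V o hov hle
  -- integrality
  obtain ⟨μ, hμ⟩ : ∃ μ : ℤ, Q.P (M.q (M.e o)) i = μ := by
    obtain ⟨e, he, h1, h2⟩ := hAR 3 f M Q o i V hM hQ hV hN
    obtain ⟨n, hn⟩ := h2 (M.e o)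
    rw [hdl, eq_div_iff (Nat.cast_ne_zero.2 he.ne'), one_mul] at h1
    exact ⟨n, by rw [hn, h1, div_one]⟩
  have hP : ∀ c : M.J → ℤ, Q.P (M.q c) i = (c o * μ : ℤ) := fun c => by
    rw [Q.exp, sum_eq_single o, hμ]
    · simp
    · intro j _ hj
      by_cases h : j ∈ Q.Al
      · rw [hh j h hj, mul_zero]
      · rw [hQ.dead h, Pi.zero_apply, mul_zero]
    · simp
  have cg : ∀ {c c' : M.J → ℤ} {g : KK 3}, c o = c' o → c i = c' i → M.Gen V c g → M.Gen V c' g :=
    fun h1 h2 => B.gen_congr V _ _ _ fun j hj => by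
      rcases Cv.thru o i V j hV hj with rfl | rfl
      exacts [h1, h2]
  -- generators
  have gen : ∀ d : M.J → ℤ, ∃ γ, Q.SecA V d γ ∧
      ∀ c', c' o = d o → c' i = d o * μ → M.Gen V c' γ := fun d => by
    obtain ⟨n, c, g, hg, h1, h2, h3, h4⟩ := hIL 3 f M Q o i V hM hQ hV hN d
    obtain ⟨T, hT, hT'⟩ := hQ.free
    obtain ⟨t, ht, ht'⟩ := hT' V hov
    have h5 := B.gen_pow V _ _ n ht'
    refine ⟨g / t ^ n, ⟨_, fun j hj => ?_, S.quot c n g hg _
      (fun V' h => B.oc_pow V' _ _ n (hT t ht V' h)) h5⟩, fun c' a b => ?_⟩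
    · simp [h2 j hj]
    · rw [hdl, hP, add_sub_cancel_right, Int.ceil_intCast] at h3
      rw [hP] at h4
      have h6 : c i ≤ n * Q.L i + d o * μ := by exact_mod_cast h4
      rw [div_eq_mul_inv]
      refine cg ?_ ?_ (B.gen_mul V _ _ _ _ h1 (B.gen_inv V _ _ h5))
      · simp [h2 o hQ.al, a]
      · simp only [Pi.add_apply, Pi.neg_apply, nsmul_eq_mul, Pi.mul_apply, Pi.natCast_apply, b]
        omega
  have neg : ∀ j l, (-M.e j) l ≤ (0 : M.J → ℤ) l := fun j l => by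
    rw [Pi.neg_apply, M.e_apply]
    split_ifs <;> simp
  have h1 : ∀ j, j ≠ o → Q.SecA V (-M.e j) 1 := fun j hj => by
    obtain ⟨γ, a, b⟩ := gen (-M.e j)
    have c := un_of_gen hM B hov (b 0 (by simp [M.e_apply, hj.symm]) (by simp [M.e_apply, hj.symm]))
    have d := S.mul _ _ _ _ a (secA (S.inv γ (S.zero γ (S.mono _ _ _ (fun l _ => neg j l) a)) c))
    rwa [add_zero, mul_inv_cancel₀ c.1] at d
  obtain ⟨x, hx, hx'⟩ := gen (-M.e o)
  have eo : M.e o o = 1 := by simp [M.e_apply]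
  have ei : M.e i i = 1 := by simp [M.e_apply]
  have eoi : M.e o i = 0 := by simp [M.e_apply, hio]
  have eio : M.e i o = 0 := by simp [M.e_apply, hio.symm]
  have gx : M.Gen V (-M.e o - μ • M.e i) x := hx' _ (by simp [eio]) (by simp [eo, ei, eoi])
  have xO : x ∈ ring S := S.zero x (S.mono _ _ _ (fun l _ => neg o l) hx)
  obtain ⟨x0, vx⟩ := gen_up hM B hov hle gx
  have vx1 : (M.v o).v x = 1 := by simp [vx, eo, eio]
  have hO : ∀ g ∈ ring S, g ∈ V := fun g hg => mem_of_oc hM B hov (S.le 0 g hg)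
  have hdiv : ∀ g ∈ ring S, g ∈ (M.v o).F 1 → g / x ∈ ring S := fun g hg hg1 => by
    obtain ⟨m, c', hm, hc'⟩ := den' (Q.P (M.q (-M.e o)))
    refine S.div _ x g m c' hm hc' hx (cg ?_ ?_ (B.gen_pow V _ _ m gx)) (secA (S.van o g hg hg1))
    · have := congrFun hc' o
      rw [Pi.smul_apply, hQ.id _ o hQ.al] at this
      simp only [Mod.q_apply, nsmul_eq_mul] at this
      have h2 : c' o = m * (-M.e o) o := by exact_mod_cast this
      simp [h2, eio]
    · have := congrFun hc' i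
      rw [Pi.smul_apply, hP] at this
      simp only [Mod.q_apply, nsmul_eq_mul] at this
      have h2 : c' i = m * ((-M.e o) o * μ) := by exact_mod_cast this
      simp [h2, eo, ei, eoi]
  -- the chart
  obtain ⟨b, hb⟩ := hM.cov V hov
  obtain ⟨hbo, -, ⟨l0, hl0⟩, -⟩ := B.in_v b V o hb hto
  obtain ⟨-, -, ⟨l1, hl1⟩, -⟩ := B.in_v b V i hb hti
  obtain ⟨σ, rfl, rfl⟩ := third l0 l1 fun e => hio (M.S.lab_inj b _ _ _ hl1 (e ▸ hl0))
  have ηo : M.η b o = M.S.z b (σ 0) := M.S.η_some b o _ hl0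
  have ηi : M.η b i = M.S.z b (σ 1) := M.S.η_some b i _ hl1
  have Dz : ∀ a a', M.S.D b (σ a) (M.S.z b (σ a')) = if a = a' then 1 else 0 := fun a a' => by
    simp [M.S.D_z]
  have uz : Un V (M.S.z b (σ 2)) := by
    by_contra hn
    obtain ⟨s, hs, h, hh, h', hh', us, e⟩ := hcv b hb _ (M.S.z_mem b _) hn
    have e2 := congrArg (M.S.D b (σ 2)) e
    rw [ηo, ηi] at e2
    simp only [map_add, Derivation.leibniz, Dz, smul_eq_mul] at e2
    have e3 : s = M.S.D b (σ 2) h * M.η b o + M.S.D b (σ 2) h' * M.η b i +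
        -M.S.D b (σ 2) s * M.S.z b (σ 2) := by
      rw [ηo, ηi]
      simp at e2
      linear_combination e2
    have m : ∀ g ∈ M.S.A b, M.S.D b (σ 2) g ∈ V := fun g hg => hb _ (M.S.D_mem b _ g hg)
    have z : ∀ j, M.η b j ∈ V := fun j => hb _ (B.η_mem b j)
    refine not_un_add (add_mem (mul_mem (m _ hh) (z o)) (mul_mem (m _ hh') (z i)))
      (mul_mem (neg_mem (m _ hs)) (hb _ (M.S.z_mem b _)))
      (not_un_add (mul_mem (m _ hh) (z o)) (mul_mem (m _ hh') (z i))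
        (not_un_mul (m _ hh) (z o) (hto b hb)) (not_un_mul (m _ hh') (z i) (hti b hb)))
      (not_un_mul (neg_mem (m _ hs)) (hb _ (M.S.z_mem b _)) hn) (e3 ▸ us)
  obtain ⟨y, yO, hy⟩ := hSu 3 f M Q o i V hM hQ hV hN _ (hb _ (M.S.z_mem b (σ 1)))
  obtain ⟨z, zO, hz⟩ := hSu 3 f M Q o i V hM hQ hV hN _ uz.2.1
  have hy' : y - M.S.z b (σ 1) ∈ (M.v o).F 1 := by simpa using neg_mem hy
  have hz' : z - M.S.z b (σ 2) ∈ (M.v o).F 1 := by simpa using neg_mem hz
  have ge : ∀ j (r : ℤ), M.Gen V (-(r • M.e j)) (M.η b j ^ r) := fun j r =>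
    (B.gen_iff b V _ _ hb).2 (by
      rw [B.mon_neg, B.mon_e, mul_inv_cancel₀ (zpow_ne_zero _ (M.η_ne b j))]
      exact un_one)
  have gy : M.Gen V (-((1 : ℤ) • M.e i)) y :=
    B.gen_small V o _ _ _ hle (ge i 1) (by simpa [eio, ηi] using hy')
  have gz : M.Gen V 0 z := B.gen_small V o _ _ _ hle (gen_of_un B uz) (by simpa using hz')
  obtain ⟨y0, vy⟩ := gen_up hM B hov hle gy
  obtain ⟨z0, vz⟩ := gen_up hM B hov hle gz
  have D0 : ∀ l, ∀ g ∈ (M.v o).F 0, M.S.D b l g ∈ (M.v o).F 0 := fun l g hg =>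
    (Dr.lc b _ l g (B.frac b o hbo g hg)).mem' hbo
  have D1 : ∀ a, a ≠ 0 → ∀ g ∈ (M.v o).F 1, M.S.D b (σ a) g ∈ (M.v o).F 1 := fun a ha g hg => by
    simpa [ha] using Dr.ord b o _ hbo hl0 (σ a) 1 g hg
  have gξ : M.Gen V (-(μ • M.e i)) (x / M.η b o) := by
    have := B.gen_mul V _ _ _ _ gx (ge o (-1))
    rw [zpow_neg_one, ← div_eq_mul_inv] at this
    exact cg (by simp [eio]) (by simp [eoi]) this
  obtain ⟨ξ0, vξ⟩ := gen_up hM B hov hle gξ
  have ξF : x / M.η b o ∈ (M.v o).F 0 := Or.inr (by simp [vξ, eio])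
  have ηF : M.η b o ∈ (M.v o).F 1 := Or.inr (by
    have := B.v_mon b o (M.e o) hbo
    have h2 := B.mon_e b o 1
    rw [one_smul, zpow_one] at h2
    rw [h2, eo] at this
    exact this.ge)
  let w : Fin 3 → KK 3 := ![x, y, z]
  have wO : ∀ j, w j ∈ ring S := fun j => by
    fin_cases j
    exacts [xO, yO, zO]
  have xF : x ∈ (M.v o).F 1 := Or.inr vx1.ge
  have hd : ((Matrix.of fun a j => M.S.D b a (w j)).submatrix σ id).det - x / M.η b o ∈
      (M.v o).F 1 := by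
    refine det3 _ _ _ ξF ?_ (D0 _ y (hle (hO y yO))) (D0 _ z (hle (hO z zO)))
      (D1 1 (by decide) x xF) (D1 2 (by decide) x xF) ?_ ?_ ?_ ?_
    · have e : M.S.D b (σ 0) x - x / M.η b o = M.η b o * M.S.D b (σ 0) (x / M.η b o) := by
        conv_lhs => rw [← mul_div_cancel₀ x (M.η_ne b o), Derivation.leibniz]
        rw [mul_div_cancel₀ x (M.η_ne b o), ηo, Dz]
        simp
      have := (M.v o).F_mul ηF (D0 (σ 0) _ ξF)
      rw [← e, add_zero] at this
      exact this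
    · simpa [Dz, w] using D1 1 (by decide) _ hy'
    · simpa [Dz, w] using D1 1 (by decide) _ hz'
    · simpa [Dz, w] using D1 2 (by decide) _ hy'
    · simpa [Dz, w] using D1 2 (by decide) _ hz'
  have gJ : M.Gen V (-(μ • M.e i)) (Matrix.of fun a j => M.S.D b a (w j)).det := by
    have h2 := B.gen_small V o _ _ _ hle gξ (by simpa [eio] using hd)
    rw [Matrix.det_permute] at h2
    refine (B.gen_iff b V _ _ hb).2 ?_
    have h3 := (B.gen_iff b V _ _ hb).1 h2
    rcases Int.units_eq_one_or (Equiv.Perm.sign σ) with h | h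
    · simpa [h] using h3
    · simpa [h] using h3.neg
  obtain ⟨U, hU, hdet⟩ := hM.det b
  have U0 : (U : KK 3) * M.mon b M.kk ≠ 0 := mul_ne_zero U.ne_zero (M.mon_ne b _)
  have gU : M.Gen V (-M.kk) ((U : KK 3) * M.mon b M.kk) := (B.gen_iff b V _ _ hb).2 (by
    rw [B.mon_neg, mul_inv_cancel_right₀ (M.mon_ne b _)]
    exact ⟨U.ne_zero, hb _ hU.1, by simpa using hb _ hU.2⟩)
  have gR : M.Gen V (-(μ • M.e i) + M.kk) (Matrix.of fun l j => M.S.R l (w j)).det := by
    have := B.gen_mul V _ _ _ _ gJ (B.gen_inv V _ _ gU)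
    rwa [jac, hdet, neg_neg, mul_right_comm, mul_inv_cancel₀ U0, one_mul] at this
  have R0 := (gen_up hM B hov hle gR).1
  obtain ⟨C, hz, hCD, hCd⟩ := hF (KK 3) 3 M.S.r M.S.R w M.S.R_r (span hM) (fun j => by
    fin_cases j
    exacts [x0, y0, z0]) R0
  have hk : ∀ g : Fin 3 → KK 3, (∀ j, g j ∈ ring S) →
      (Matrix.of fun l j => M.S.R l (g j)).det * x ^ M.k o ∈ ring S := fun g hg =>
    drop S h1 (by simp [eo, Mod.kk]) (S.mul _ _ _ _ (secA (S.der g hg)) (secA_pow S hx (M.k o)))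
  have uu : Un V ((Matrix.of fun l j => M.S.R l (w j)).det * x ^ M.k o) := by
    refine un_of_gen hM B hov (cg ?_ ?_ (B.gen_mul V _ _ _ _ gR (B.gen_pow V _ _ (M.k o) gx)))
    · simp [eo, eio, Mod.kk]
    · have h2 := hdl
      rw [PD.dl, hP] at h2
      have h3 : (M.k i : ℤ) + 1 - (M.kk + M.e o) o * μ = 1 := by exact_mod_cast h2
      simp only [Pi.add_apply, eo, Mod.kk] at h3
      simp only [Pi.add_apply, Pi.neg_apply, Pi.smul_apply, Pi.sub_apply, ei, eoi, Mod.kk,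
        smul_eq_mul, nsmul_eq_mul, Pi.mul_apply, Pi.natCast_apply, Pi.zero_apply]
      linear_combination h3
  have ui := S.inv _ (hk w wO) uu
  have xk : x ^ M.k o ≠ 0 := pow_ne_zero _ x0
  have z0' : C.z 0 = x := by rw [hz]; rfl
  have z1' : C.z 1 = y := by rw [hz]; rfl
  have z2' : C.z 2 = z := by rw [hz]; rfl
  refine ⟨ring S, C, ⟨fun j => hz ▸ wO j, fun j g hg => ?_⟩,
    ⟨⟨fun c => hle (hO _ ((ring S).algebraMap_mem c)), fun j => ?_, fun j g hg => ?_⟩,
      fun g hg => hle (hO g hg), fun g hg hg1 => z0' ▸ hdiv g hg hg1⟩,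
    fun p => S.zero _ (S.pol p), hO, S.inv, hSu 3 f M Q o i V hM hQ hV hN, fun b' hb' => ?_,
    z2' ▸ un_of_gen hM B hov gz, ?_, ⟨_, ui, uu.inv, ?_⟩⟩
  · have h2 := mul_mem (hk (Function.update w j g) fun j' => by
      by_cases h : j' = j
      · rw [h, Function.update_self]; exact hg
      · rw [Function.update_of_ne h]; exact wO j') (show _ ∈ ring S from ui)
    rwa [← hCD, mul_assoc (C.D j g), mul_inv_cancel_right₀ uu.1] at h2
  · fin_cases j
    · simpa [z0'] using vx1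
    · simpa [z1', eio] using vy
    · simpa [z2'] using vz
  · have h2 : (Matrix.of fun a j' => M.S.D b a (Function.update w j g j')).det ∈ (M.v o).O :=
      det_mem _ _ fun a j' => D0 a _ (by
        by_cases h : j' = j
        · rw [h, Function.update_self]; exact hg
        · rw [Function.update_of_ne h]; exact hle (hO _ (wO j')))
    obtain ⟨J0, vJ⟩ := gen_up hM B hov hle gJ
    have h3 : Un (M.v o).O (Matrix.of fun a j => M.S.D b a (w j)).det :=
      (M.v o).un_O.2 ⟨J0, by simp [vJ, eio]⟩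
    rw [jac, ← hCD, mul_left_comm, ← jac] at h2
    exact h3.mem_iff.1 h2
  · have := (B.gen_iff b' V _ _ hb').1 gy
    rwa [B.mon_neg, B.mon_e, zpow_one, ← div_eq_mul_inv, ← z1'] at this
  · have h2 : ∀ n : ℕ, ∀ g ∈ ring S, g ∈ (M.v o).F n → g / x ^ n ∈ ring S := fun n => by
      induction n with
      | zero => intro g hg _; simpa using hg
      | succ n ih =>
        intro g hg hg1
        have h3 : g / x ∈ (M.v o).F n := by
          have := (M.v o).F_mul hg1 (show x⁻¹ ∈ (M.v o).F (-1) from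
            Or.inr (by rw [(M.v o).inv, vx1]))
          rw [← div_eq_mul_inv] at this
          simpa using this
        have h4 := ih _ (hdiv g hg ((M.v o).F_anti (by push_cast; omega) hg1)) h3
        rwa [div_div, ← pow_succ'] at h4
    obtain ⟨f0, vf⟩ := gen_up hM B hov hle (B.gen_f V)
    refine ⟨_, h2 (M.a o) _ (S.zero _ (S.pol f)) (Or.inr (by rw [vf]; simp [Mod.aa])), ?_,
      by rw [z0', div_mul_cancel₀ _ (pow_ne_zero _ x0)]⟩
    rw [div_eq_mul_inv]
    refine un_of_gen hM B hov (cg ?_ ?_ (B.gen_mul V _ _ _ _ (B.gen_f V)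
      (B.gen_inv V _ _ (B.gen_pow V _ _ (M.a o) gx))))
    · simp [eo, eio, Mod.aa]
    · have h3 := congrFun hQ.aa i
      rw [hP, Mod.q_apply] at h3
      have h4 : M.aa o * μ = M.aa i := by exact_mod_cast h3
      simp only [Mod.aa] at h4
      simp only [Pi.add_apply, Pi.neg_apply, Pi.smul_apply, Pi.sub_apply, ei, eoi, Mod.aa,
        smul_eq_mul, nsmul_eq_mul, Pi.mul_apply, Pi.natCast_apply, Pi.zero_apply]
      linear_combination h4
  · rw [z0', mul_inv, inv_mul_cancel_right₀ xk]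
    exact eq_inv_of_mul_eq_one_left hCd

end Pool.Agent.MP_ee8c61_ag.N3.M3KV
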