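import Pool.Agent.MP_ee8c61_ag.N3E.Spec
import Pool.Agent.MP_ee8c61_ag.M3RESID.Defs

/-!
Curves on a divisor that are not contracted: the arithmetic of the coefficients and the regular
local ring. Every `OfX` is one task.
-/

namespace Pool.Agent.MP_ee8c61_ag.N3.M3KV

open Pool.Agent.MP_ee8c61_ag.M3

set_option linter.unusedSectionVars false

variable [Base]

open H59 M3 M3E M3RESID Finset

noncomputable section

variable {N : ℕ}

/-- The set of divisors that are not contracted, the pull-back from the contracted model, and a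
free divisor that defines the contraction. -/
structure PD (M : Mod N) where
  Al : Set M.J
  P : (M.J → ℚ) →ₗ[ℚ] (M.J → ℚ)
  L : M.J → ℤ

namespace PD

variable {M : Mod N} (Q : PD M)

/-- The discrepancy of the divisor `o`. -/
def dl (o j : M.J) : ℚ := M.k j + 1 - Q.P (M.q (M.kk + M.e o)) j

structure OK (o : M.J) : Prop where
  al : o ∈ Q.Al
  id : ∀ c, ∀ j ∈ Q.Al, Q.P c j = c j
  pr : ∀ c c', (∀ j ∈ Q.Al, c j = c' j) → Q.P c = Q.P c'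
  exc : ∀ c, ∀ g ∈ M.H c, ∀ (m : ℕ) c', 0 < m → M.q c' = m • Q.P (M.q c) → g ^ m ∈ M.H c'
  fix : Q.P (M.q Q.L) = M.q Q.L
  aa : Q.P (M.q M.aa) = M.q M.aa
  free : M.Free Q.L
  sa : ∀ c, ∃ n : ℕ, M.SemiQ (n • M.q Q.L + Q.P (M.q c))
  amp : ∀ c (ε : ℚ), 0 < ε → ∃ Ξ : M.J → ℚ, (∀ j ∈ Q.Al, Ξ j = 0) ∧ (∀ j, Ξ j < ε) ∧
    ∃ n0 : ℕ, ∀ n ≥ n0, M.AmpQ (n • M.q Q.L + Q.P (M.q c) - Ξ)
  pos : ∀ j, j ≠ o → 0 < Q.dl o j

/-- The centre of `V` on the divisor `o` is not in the augmented base locus. -/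
def NN (o : M.J) (V : Vl N) : Prop :=
  ∀ c, ∃ n : ℕ, ∃ s ∈ M.R o (c + n • Q.L), M.Gen V (c + n • Q.L) s

/-- Sections of `c` on a neighbourhood of the image of the centre of `V`. -/
def Sec (V : Vl N) (c : M.J → ℤ) (g : KK N) : Prop :=
  ∃ (n : ℕ) (t : KK N), t ∈ M.H (n • Q.L) ∧ M.Gen V (n • Q.L) t ∧
    ∀ V', Ov V' → M.Gen V' (n • Q.L) t → M.Oc V' c g

/-- The same with poles allowed along the contracted divisors. -/
def SecA (V : Vl N) (c : M.J → ℤ) (g : KK N) : Prop :=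
  ∃ c', (∀ j ∈ Q.Al, c' j ≤ c j) ∧ Q.Sec V c' g

end PD

/-- A regular local ring at the image of the curve `V` in which the polynomial and the Jacobian
are powers of one parameter. -/
structure Reg (f : Po 3) (M : Mod 3) (o i : M.J) (V : Vl 3) (O : Subalgebra ℂ (KK 3))
    (C : Co (KK 3) 3) : Prop where
  st : C.St O
  dat : C.Dat O (M.v o) 0
  pol : ∀ p, ip 3 p ∈ O
  le : ∀ g ∈ O, g ∈ V
  inv : ∀ g ∈ O, Un V g → g⁻¹ ∈ O
  surj : ∀ y ∈ V, ∃ g ∈ O, y - g ∈ (M.v o).F 1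
  y : ∀ b, M.In b V → Un V (C.z 1 / M.η b i)
  z : Un V (C.z 2)
  ord : ∃ u ∈ O, Un V u ∧ ip 3 f = u * C.z 0 ^ M.a o
  det : ∃ u ∈ O, Un V u ∧ (Matrix.of fun l j => C.D j (M.S.r l)).det = u * C.z 0 ^ M.k o

/-- A property of all data. -/
def AllQ (P : ∀ {N : ℕ} (_ : Po N) (M : Mod N) (_ : PD M) (_ _ : M.J) (_ : Vl N), Prop) : Prop :=
  ∀ (N : ℕ) (f : Po N) (M : Mod N) (Q : PD M) (o i : M.J) (V : Vl N), M.OK f → Q.OK o →
    M.IsCv o i V → Q.NN o V → P f M Q o i V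

/-! ### Output -/

/-- The discrepancy is `1 / e` and all pull-backs have denominator `e`. -/
def SAR : Prop := AllQ fun _ M Q o i _ => ∃ e : ℕ, 0 < e ∧ Q.dl o i = 1 / e ∧
  ∀ c, ∃ n : ℤ, Q.P (M.q c) i = n / e

/-- The regular local ring. -/
def SREG : Prop := ∀ (f : Po 3) (M : Mod 3) (Q : PD M) (o i : M.J) (V : Vl 3), M.OK f → Q.OK o →
  M.IsCv o i V → Q.NN o V → Q.dl o i = 1 → (∀ j ∈ Q.Al, j ≠ o → Q.P (M.q (M.e j)) i = 0) →
  ∃ O C, Reg f M o i V O C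

/-! ### Rows -/

/-- Arithmetic. -/
def SAr : Prop := ∀ (X : Type) [AddCommGroup X] (φ : X →+ ℚ) (m : ℕ) (δ : ℚ), 0 < m →
  (∀ x, ∃ n : ℤ, φ x = n / m) → 0 < δ → (∃ x, ∃ n : ℤ, δ = φ x + n) →
  (∀ x, (⌈φ x + δ - 1⌉ : ℚ) ≤ φ x) → ∃ e : ℕ, 0 < e ∧ δ = 1 / e ∧ ∀ x, ∃ n : ℤ, φ x = n / e

/-- Clearing of poles along the zeros of a section. -/
def SPow : Prop := AllM fun _ M => ∀ c0, ∀ t ∈ M.H c0, ∀ c g,
  ((∀ V, Ov V → M.Gen V c0 t → M.Oc V c g) → ∃ k : ℕ, t ^ k * g ∈ M.H (c + k • c0))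

def OfPow : Prop := SBas → SNb → SPow

/-- Lifting of a generator. -/
def SIL : Prop := AllQ fun _ M Q o i V => ∀ d, ∃ (n : ℕ) (c : M.J → ℤ), ∃ g ∈ M.H c,
  M.Gen V c g ∧ (∀ j ∈ Q.Al, c j = d j + n * Q.L j) ∧
  n * Q.L i + ⌈Q.P (M.q d) i + Q.dl o i - 1⌉ ≤ c i ∧ (c i : ℚ) ≤ n * Q.L i + Q.P (M.q d) i

def OfIL : Prop := SBas → SNb → SCv → SL0 → SIL

def OfAR : Prop := SAr → SIL → SAR

/-- Restriction to the divisor is onto in large degree. -/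
def SL3 : Prop := ∀ (N : ℕ) (f : Po N) (M : Mod N) (Q : PD M) (o : M.J), M.OK f → Q.OK o →
  ∃ n0 : ℕ, ∀ n ≥ n0, ∀ s ∈ M.R o (n • Q.L), M.Lf o (n • Q.L) s

def OfL3 : Prop := SBas → SL0 → SL3

/-- The calculus of local sections. -/
structure Sc {M : Mod N} (Q : PD M) (V : Vl N) : Prop where
  add : ∀ c g h, Q.SecA V c g → Q.SecA V c h → Q.SecA V c (g + h)
  mul : ∀ c c' g h, Q.SecA V c g → Q.SecA V c' h → Q.SecA V (c + c') (g * h)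
  pol : ∀ p, Q.SecA V 0 (ip N p)
  mono : ∀ c c' g, (∀ j ∈ Q.Al, c j ≤ c' j) → Q.SecA V c g → Q.SecA V c' g
  quot : ∀ c (n : ℕ), ∀ g ∈ M.H c, ∀ t ∈ M.H (n • Q.L), M.Gen V (n • Q.L) t →
    Q.Sec V (c - n • Q.L) (g / t)
  exc : ∀ c g (m : ℕ) c', 0 < m → M.q c' = m • Q.P (M.q c) → Q.SecA V c g → Q.Sec V c' (g ^ m)
  zero : ∀ g, Q.SecA V 0 g → Q.Sec V 0 g
  le : ∀ c g, Q.Sec V c g → M.Oc V c g
  inv : ∀ g, Q.Sec V 0 g → Un V g → Q.Sec V 0 g⁻¹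
  van : ∀ j g, Q.Sec V 0 g → g ∈ (M.v j).F 1 → Q.Sec V (-M.e j) g
  div : ∀ c γ g (m : ℕ) c', 0 < m → M.q c' = m • Q.P (M.q c) → Q.SecA V c γ →
    M.Gen V c' (γ ^ m) → Q.SecA V c g → Q.Sec V 0 (g / γ)
  der : ∀ g : Fin N → KK N, (∀ l, Q.Sec V 0 (g l)) →
    Q.Sec V M.kk (Matrix.of fun l j => M.S.R l (g j)).det

def SSc : Prop := ∀ (N : ℕ) (f : Po N) (M : Mod N) (Q : PD M) (o : M.J) (V : Vl N), M.OK f →
  Q.OK o → Ov V → Sc Q V

def OfSc : Prop := SBas → SNb → SDer → SPow → SSc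

/-- The local ring maps onto the valuation ring of the curve. -/
def SSurj : Prop := AllQ fun _ M Q o _ V => ∀ y ∈ V, ∃ g, Q.Sec V 0 g ∧ y - g ∈ (M.v o).F 1

def OfSurj : Prop := SBas → SNb → SCv → SPow → SL3 → SSc → SSurj

/-- Frames from a Jacobian determinant. -/
def SFr : Prop := ∀ (L : Type) [Field L] [Algebra ℂ L] (n : ℕ) (r : Fin n → L) (R : Fin n → VF L)
  (z : Fin n → L), (∀ i j, R i (r j) = if i = j then 1 else 0) →
  (∀ (δ : VF L) g, δ g = ∑ l, δ (r l) * R l g) → (∀ j, z j ≠ 0) →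
  (Matrix.of fun l j => R l (z j)).det ≠ 0 → ∃ C : Co L n, C.z = z ∧
    (∀ j g, C.D j g * (Matrix.of fun l j => R l (z j)).det =
      (Matrix.of fun l j' => R l (Function.update z j g j')).det) ∧
    (Matrix.of fun l j => C.D j (r l)).det * (Matrix.of fun l j => R l (z j)).det = 1

def OfREG : Prop := SBas → SDer → SCv → SAR → SIL → SSc → SSurj → SFr → SREG

end

end Pool.Agent.MP_ee8c61_ag.N3.M3KV
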