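import Pool.Agent.MP_ee8c61_ag.N3KV.Spec

/-! The discrepancy along a curve that is not contracted; the dichotomy. -/

namespace Pool.Agent.MP_ee8c61_ag.N3.M3KV

open Pool.Agent.MP_ee8c61_ag.M3

set_option linter.unusedSectionVars false

variable [Base]

open H59 M3 M3E M3RESID Finset

variable {N : ℕ} {M : Mod N}

theorem den {J : Type} [Fintype J] (x : J → ℚ) : ∃ m : ℕ, 0 < m ∧ ∀ j, ∃ n : ℤ, x j = n / m := by
  refine ⟨∏ j, (x j).den, prod_pos fun j _ => (x j).pos, fun j => ?_⟩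
  obtain ⟨k, hk⟩ := dvd_prod_of_mem (fun j => (x j).den) (mem_univ j)
  have h0 : k ≠ 0 := fun h => (prod_pos fun j _ => (x j).pos).ne' (by rw [hk, h, mul_zero])
  refine ⟨(x j).num * k, ?_⟩
  rw [hk]
  push_cast
  rw [mul_div_mul_right _ _ (Nat.cast_ne_zero.2 h0), Rat.num_div_den]

theorem den' (x : M.J → ℚ) : ∃ (m : ℕ) (c : M.J → ℤ), 0 < m ∧ M.q c = m • x := by
  obtain ⟨m, hm, h⟩ := den x
  choose c hc using h
  refine ⟨m, c, hm, funext fun j => ?_⟩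
  have : (m : ℚ) ≠ 0 := Nat.cast_ne_zero.2 hm.ne'
  rw [Pi.smul_apply, hc, nsmul_eq_mul, mul_div_cancel₀ _ this, Mod.q_apply]

theorem PD.exp (Q : PD M) (c : M.J → ℚ) (i : M.J) :
    Q.P c i = ∑ j, c j * Q.P (M.q (M.e j)) i := by
  have : c = ∑ j, c j • M.q (M.e j) := funext fun l => by simp [M.e_apply]
  conv_lhs => rw [this]
  simp [map_sum]

theorem PD.OK.dead {Q : PD M} {o : M.J} (h : Q.OK o) {j : M.J} (hj : j ∉ Q.Al) :
    Q.P (M.q (M.e j)) = 0 := by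
  rw [h.pr _ 0 fun l hl => ?_, map_zero]
  have : l ≠ j := fun e => hj (e ▸ hl)
  simp [M.e_apply, this]

theorem rowAR : OfAR := by
  intro hA hI N f M Q o i V hM hQ hV hN
  obtain ⟨m, hm, h⟩ := den fun j => Q.P (M.q (M.e j)) i
  choose n hn using h
  refine hA (M.J → ℤ) (AddMonoidHom.mk' (fun c => Q.P (M.q c) i) fun a b => by
    rw [M.q_add, map_add, Pi.add_apply]) m _ hm (fun c => ⟨∑ j, c j * n j, ?_⟩) (hQ.pos i hV.1)
    ⟨-(M.kk + M.e o), M.k i + 1, ?_⟩ fun d => ?_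
  · simp only [AddMonoidHom.mk'_apply]
    rw [Q.exp]
    simp [hn, sum_div, mul_div_assoc]
  · simp only [AddMonoidHom.mk'_apply]
    rw [M.q_neg, map_neg, PD.dl, Pi.neg_apply]
    push_cast
    ring
  · obtain ⟨k, c, g, -, -, -, h1, h2⟩ := hI N f M Q o i V hM hQ hV hN d
    have h3 : ((k * Q.L i + ⌈Q.P (M.q d) i + Q.dl o i - 1⌉ : ℤ) : ℚ) ≤ c i := Int.cast_le.2 h1
    simp only [AddMonoidHom.mk'_apply]
    push_cast at h3
    linarith

/-- The log discrepancy. -/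
noncomputable def PD.ll (Q : PD M) (i : M.J) : ℚ := M.k i + 1 - Q.P (fun j => M.k j + 1) i

theorem PD.dl_eq (Q : PD M) (o i : M.J) :
    Q.dl o i = Q.ll i + ∑ j ∈ univ.erase o, Q.P (M.q (M.e j)) i := by
  have h : (fun j => (M.k j : ℚ) + 1) =
      M.q (M.kk + M.e o) + ∑ j ∈ univ.erase o, M.q (M.e j) := funext fun l => by
    by_cases h : l = o <;> simp [M.e_apply, Mod.kk, h]
  rw [PD.dl, PD.ll, h, map_add, map_sum, Pi.add_apply, Finset.sum_apply]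
  ring

/-- A curve that is not contracted lies on exactly one other divisor, or on none. -/
def SDich : Prop := AllQ fun _ M Q o i _ => 0 ≤ Q.ll i → (∀ j, 0 ≤ Q.P (M.q (M.e j)) i) →
  ∃ e : ℕ, 0 < e ∧ Q.dl o i = 1 / e ∧ (∀ c, ∃ n : ℤ, Q.P (M.q c) i = n / e) ∧
    ((Q.ll i = 0 ∧ ∃ j ∈ Q.Al, j ≠ o ∧ Q.P (M.q (M.e j)) i = 1 / e ∧
      ∀ j', j' ≠ o → j' ≠ j → Q.P (M.q (M.e j')) i = 0) ∨
    (Q.ll i = 1 / e ∧ ∀ j, j ≠ o → Q.P (M.q (M.e j)) i = 0))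

theorem dich_of (hA : SAR) : SDich := by
  intro N f M Q o i V hM hQ hV hN hl hp
  obtain ⟨e, he, h1, h2⟩ := hA N f M Q o i V hM hQ hV hN
  refine ⟨e, he, h1, h2, ?_⟩
  have h3 := Q.dl_eq o i
  by_cases h : ∀ j, j ≠ o → Q.P (M.q (M.e j)) i = 0
  · refine Or.inr ⟨?_, h⟩
    rw [h1, sum_eq_zero fun j hj => h j (ne_of_mem_erase hj), add_zero] at h3
    exact h3.symm
  push Not at h
  obtain ⟨j, hj, h4⟩ := h
  have he' : (0 : ℚ) < e := Nat.cast_pos.2 he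
  obtain ⟨n, hn⟩ := h2 (M.e j)
  have h5 : 1 / (e : ℚ) ≤ Q.P (M.q (M.e j)) i := by
    have h6 : 0 < Q.P (M.q (M.e j)) i := lt_of_le_of_ne (hp j) (Ne.symm h4)
    rw [hn] at h6 ⊢
    have h7 : (0 : ℚ) < n := (div_pos_iff_of_pos_right he').1 h6
    have h8 : (1 : ℚ) ≤ n := by exact_mod_cast (show (1 : ℤ) ≤ n from by exact_mod_cast h7)
    exact div_le_div_of_nonneg_right h8 he'.le
  rw [← add_sum_erase _ _ (mem_erase.2 ⟨hj, mem_univ j⟩), h1] at h3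
  have h9 : 0 ≤ ∑ j' ∈ (univ.erase o).erase j, Q.P (M.q (M.e j')) i := sum_nonneg fun j' _ => hp j'
  refine Or.inl ⟨by linarith, j, by_contra fun h => h4 (by rw [hQ.dead h]; rfl), hj, by linarith,
    fun j' a b => ?_⟩
  exact (sum_eq_zero_iff_of_nonneg fun j' _ => hp j').1 (by linarith) j'
    (mem_erase.2 ⟨b, mem_erase.2 ⟨a, mem_univ _⟩⟩)

end Pool.Agent.MP_ee8c61_ag.N3.M3KV
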